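import Pool.Agent.Helper82.AH.Props
import Pool.Agent.Helper82.AH.Basic

/-!
# MP_b55b7c_an: packet AH-CU
-/

open scoped ENNReal NNReal InnerProductSpace ComplexOrder
open Filter Topology

attribute [-instance] CStarMatrix.instAlgebra CStarMatrix.instModule CStarMatrix.instSMul
  CStarMatrix.instMulAction CStarMatrix.instDistribMulAction

noncomputable section
namespace RC
universe u

namespace CUAux

open Matrix

variable {N : ℕ}

/-- The squared norm of a vector. -/
def nsq (v : Fin N → ℂ) : ℝ := (star v ⬝ᵥ v).re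

theorem nsq_eq (v : Fin N → ℂ) : nsq v = ∑ i, ‖v i‖ ^ 2 := by
  unfold nsq
  rw [dotProduct, Complex.re_sum]
  refine Finset.sum_congr rfl fun i _ => ?_
  rw [Pi.star_apply, Complex.star_def, mul_comm, Complex.mul_conj, Complex.normSq_eq_norm_sq]
  exact Complex.ofReal_re _

theorem nsq_nonneg (v : Fin N → ℂ) : 0 ≤ nsq v := by
  rw [nsq_eq]
  positivity

theorem nsq_zero {v : Fin N → ℂ} (h : nsq v = 0) : v = 0 := by
  rw [nsq_eq, Finset.sum_eq_zero_iff_of_nonneg (fun i _ => by positivity)] at h
  funext i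
  have := h i (Finset.mem_univ i)
  simpa using this

/-- The quadratic form of a matrix. -/
def qf (m : Mt N) (v : Fin N → ℂ) : ℝ := (star v ⬝ᵥ (m.mat *ᵥ v)).re

theorem mat_mul (m n : Mt N) : (m * n).mat = m.mat * n.mat := rfl

theorem mat_star (m : Mt N) : (star m).mat = m.matᴴ := rfl

theorem mat_add (m n : Mt N) : (m + n).mat = m.mat + n.mat := rfl

theorem mat_sub (m n : Mt N) : (m - n).mat = m.mat - n.mat := rfl

theorem mat_one : (1 : Mt N).mat = 1 := rfl

theorem qf_star_mul (m : Mt N) (v : Fin N → ℂ) : qf (star m * m) v = nsq (m.mat *ᵥ v) := by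
  unfold qf nsq
  rw [mat_mul, mat_star, ← mulVec_mulVec, dotProduct_mulVec, ← star_mulVec]

theorem qf_nonneg {m : Mt N} (hm : 0 ≤ m) (v : Fin N → ℂ) : 0 ≤ qf m v := by
  obtain ⟨y, rfl⟩ := CStarAlgebra.nonneg_iff_eq_star_mul_self.1 hm
  rw [qf_star_mul]
  exact nsq_nonneg _

theorem qf_sub (m n : Mt N) (v : Fin N → ℂ) : qf (m - n) v = qf m v - qf n v := by
  unfold qf
  rw [mat_sub, sub_mulVec, dotProduct_sub, Complex.sub_re]

/-- Orthonormal families. -/
def ON {k : ℕ} (v : Fin k → Fin N → ℂ) : Prop :=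
  ∀ i j, star (v i) ⬝ᵥ v j = if i = j then 1 else 0

theorem ON.li {k : ℕ} {v : Fin k → Fin N → ℂ} (h : ON v) : LinearIndependent ℂ v := by
  rw [Fintype.linearIndependent_iff]
  intro c hc i
  have h1 : star (v i) ⬝ᵥ (∑ j, c j • v j) = 0 := by rw [hc, dotProduct_zero]
  rw [dotProduct_sum] at h1
  simp only [dotProduct_smul, h i, smul_eq_mul] at h1
  simpa using h1

/-- An orthonormal family in a subspace. -/
theorem exists_ON {k : ℕ} (V : Submodule ℂ (Fin N → ℂ)) (hk : k ≤ Module.finrank ℂ V) :
    ∃ v : Fin k → Fin N → ℂ, ON v ∧ ∀ i, v i ∈ V := by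
  let L := (WithLp.linearEquiv 2 ℂ (Fin N → ℂ)).symm
  let V' : Submodule ℂ (EuclideanSpace ℂ (Fin N)) := V.map (L : (Fin N → ℂ) →ₗ[ℂ] _)
  have hf : Module.finrank ℂ V' = Module.finrank ℂ V := LinearEquiv.finrank_map_eq L V
  let b := stdOrthonormalBasis ℂ V'
  have hk' : k ≤ Module.finrank ℂ V' := by rw [hf]; exact hk
  refine ⟨fun i => WithLp.ofLp (b (Fin.castLE hk' i) : EuclideanSpace ℂ (Fin N)), ?_, ?_⟩
  · intro i j
    have h1 := orthonormal_iff_ite.1 b.orthonormal (Fin.castLE hk' i) (Fin.castLE hk' j)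
    rw [Submodule.coe_inner, EuclideanSpace.inner_eq_star_dotProduct] at h1
    rw [dotProduct_comm, h1]
    simp [Fin.ext_iff]
  · intro i
    obtain ⟨w, hw, hw'⟩ := (b (Fin.castLE hk' i)).2
    change WithLp.ofLp (b (Fin.castLE hk' i) : EuclideanSpace ℂ (Fin N)) ∈ V
    rw [← hw']
    exact hw

/-- The rank of a compression drops by the number of independent vectors in the kernel. -/
theorem rank_drop {k : ℕ} (p g : Matrix (Fin N) (Fin N) ℂ) (_hpp : p * p = p) (hgp : g * p = g)
    (v : Fin k → Fin N → ℂ) (hv : LinearIndependent ℂ v) (hpv : ∀ i, p *ᵥ v i = v i)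
    (hgv : ∀ i, g *ᵥ v i = 0) : g.rank + k ≤ p.rank := by
  let R := LinearMap.range p.mulVecLin
  let f := g.mulVecLin.domRestrict R
  have h1 := LinearMap.finrank_range_add_finrank_ker f
  have h2 : LinearMap.range f = LinearMap.range g.mulVecLin := by
    apply le_antisymm
    · rintro _ ⟨x, rfl⟩
      exact ⟨x.1, rfl⟩
    · rintro _ ⟨x, rfl⟩
      refine ⟨⟨p.mulVecLin x, ⟨x, rfl⟩⟩, ?_⟩
      change g *ᵥ (p *ᵥ x) = g *ᵥ x
      rw [mulVec_mulVec, hgp]
  have h3 : k ≤ Module.finrank ℂ (LinearMap.ker f) := by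
    let w : Fin k → LinearMap.ker f := fun i =>
      ⟨⟨v i, ⟨v i, hpv i⟩⟩, by
        rw [LinearMap.mem_ker]
        exact hgv i⟩
    have hw : LinearIndependent ℂ w := by
      have h4 : LinearIndependent ℂ (fun i => ((w i : R) : Fin N → ℂ)) := hv
      exact LinearIndependent.of_comp ((Submodule.subtype R).comp (Submodule.subtype _)) h4
    have h5 := hw.fintype_card_le_finrank
    rwa [Fintype.card_fin] at h5
  have h6 : Module.finrank ℂ R = p.rank := rfl
  have h7 : Module.finrank ℂ (LinearMap.range g.mulVecLin) = g.rank := rfl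
  rw [h2, h6, h7] at h1
  omega

theorem mat_continuous (N : ℕ) : Continuous (fun m : Mt N => m.mat) :=
  (continuous_id : Continuous (id : (Fin N → Fin N → ℂ) → (Fin N → Fin N → ℂ)))

/-- The uniform gap. -/
theorem gap {D k : ℕ} (X : Set (Fin D → ℝ)) (hX : IsCompact X) (p g : C(X, Mt N))
    (hp : ∀ x, IsStarProjection (p x)) (hg : p * g * p = g)
    (hr : ∀ x, rkM (p x) < rkM (g x) + k) :
    ∃ c : ℝ, 0 < c ∧ ∀ (x : X) (v : Fin k → Fin N → ℂ), ON v → (∀ i, (p x).mat *ᵥ v i = v i) →
      c ≤ ∑ i, nsq ((g x).mat *ᵥ v i) := by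
  have : CompactSpace X := isCompact_iff_compactSpace.mp hX
  let K : Set (X × (Fin k → Fin N → ℂ)) :=
    {z | ON z.2 ∧ ∀ i, (p z.1).mat *ᵥ z.2 i = z.2 i}
  have hKe : K = (⋂ i, ⋂ j, {z : X × (Fin k → Fin N → ℂ) |
      star (z.2 i) ⬝ᵥ z.2 j = if i = j then 1 else 0}) ∩
      ⋂ i, {z : X × (Fin k → Fin N → ℂ) | (p z.1).mat *ᵥ z.2 i = z.2 i} := by
    ext z
    simp only [Set.mem_inter_iff, Set.mem_iInter]
    exact Iff.rfl
  have hKc : IsClosed K := by
    rw [hKe]
    apply IsClosed.inter
    · refine isClosed_iInter fun i => isClosed_iInter fun j => ?_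
      refine isClosed_eq ?_ continuous_const
      have h1 : Continuous fun z : X × (Fin k → Fin N → ℂ) => star (z.2 i) := by fun_prop
      have h2 : Continuous fun z : X × (Fin k → Fin N → ℂ) => z.2 j := by fun_prop
      exact h1.dotProduct h2
    · refine isClosed_iInter fun i => ?_
      have h1 : Continuous fun z : X × (Fin k → Fin N → ℂ) => (p z.1).mat :=
        (mat_continuous N).comp (p.continuous.comp continuous_fst)
      have h2 : Continuous fun z : X × (Fin k → Fin N → ℂ) => z.2 i := by fun_prop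
      exact isClosed_eq (h1.matrix_mulVec h2) h2
  have hKb : K ⊆ Set.univ ×ˢ Metric.closedBall 0 1 := by
    rintro ⟨x, v⟩ ⟨h1, _⟩
    refine ⟨Set.mem_univ _, ?_⟩
    rw [mem_closedBall_zero_iff, pi_norm_le_iff_of_nonneg zero_le_one]
    intro i
    rw [pi_norm_le_iff_of_nonneg zero_le_one]
    intro j
    have h2 : nsq (v i) = 1 := by
      unfold nsq
      have := h1 i i
      rw [if_pos rfl] at this
      change (star (v i) ⬝ᵥ v i).re = 1
      rw [this]
      rfl
    rw [nsq_eq] at h2
    have h3 : ‖v i j‖ ^ 2 ≤ 1 := by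
      rw [← h2]
      exact Finset.single_le_sum (f := fun j => ‖v i j‖ ^ 2) (fun j _ => by positivity)
        (Finset.mem_univ j)
    have h4 : 0 ≤ ‖v i j‖ := norm_nonneg _
    change ‖v i j‖ ≤ 1
    nlinarith
  have hK : IsCompact K :=
    (isCompact_univ.prod (isCompact_closedBall _ _)).of_isClosed_subset hKc hKb
  let F : X × (Fin k → Fin N → ℂ) → ℝ := fun z => ∑ i, nsq ((g z.1).mat *ᵥ z.2 i)
  have hF : Continuous F := by
    refine continuous_finsetSum _ fun i _ => ?_
    have h1 : Continuous fun z : X × (Fin k → Fin N → ℂ) => (g z.1).mat :=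
      (mat_continuous N).comp (g.continuous.comp continuous_fst)
    have h2 : Continuous fun z : X × (Fin k → Fin N → ℂ) => z.2 i := by fun_prop
    have h3 := h1.matrix_mulVec h2
    have h4 : Continuous fun z : X × (Fin k → Fin N → ℂ) => star ((g z.1).mat *ᵥ z.2 i) :=
      continuous_star.comp h3
    exact Complex.continuous_re.comp (h4.dotProduct h3)
  have hpos : ∀ z ∈ K, 0 < F z := by
    rintro ⟨x, v⟩ ⟨h1, h2⟩
    have h0 : 0 ≤ F (x, v) := Finset.sum_nonneg fun i _ => nsq_nonneg _
    rcases h0.lt_or_eq with h | h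
    · exact h
    · exfalso
      have h3 := (Finset.sum_eq_zero_iff_of_nonneg (fun i _ => nsq_nonneg _)).1 h.symm
      have h4 : ∀ i, (g x).mat *ᵥ v i = 0 := fun i => nsq_zero (h3 i (Finset.mem_univ i))
      have e1 : (p x).mat * (p x).mat = (p x).mat := by
        rw [← mat_mul, (hp x).isIdempotentElem]
      have e2 : g x * p x = g x := by
        have h5 : p x * g x * p x = g x := congrArg (fun w => w x) hg
        rw [← h5, mul_assoc (p x * g x), (hp x).isIdempotentElem]
      have e3 : (g x).mat * (p x).mat = (g x).mat := by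
        rw [← mat_mul, e2]
      have h6 := rank_drop (p x).mat (g x).mat e1 e3 v h1.li h2 h4
      have h7 := hr x
      unfold rkM at h7
      omega
  rcases K.eq_empty_or_nonempty with hE | hne
  · refine ⟨1, one_pos, fun x v h1 h2 => ?_⟩
    have hz : (x, v) ∈ K := ⟨h1, h2⟩
    rw [hE] at hz
    exact absurd hz (Set.notMem_empty _)
  · obtain ⟨z, hz, hmin⟩ := hK.exists_isMinOn hne hF.continuousOn
    refine ⟨F z, hpos z hz, fun x v h1 h2 => ?_⟩
    have hz : (x, v) ∈ K := ⟨h1, h2⟩
    have h3 : F z ≤ F (x, v) := isMinOn_iff.1 hmin _ hz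
    exact h3

/-- The function `h`. -/
def hh (r t : ℝ) : ℝ := max 0 (1 - 2 * t / r)

/-- The function `h2`. -/
def h2f (r t : ℝ) : ℝ := max 0 (min 1 (2 - 2 * t / r))

/-- The inverse of `t + h t`. -/
def psf (r t : ℝ) : ℝ := (max (t + hh r t) (min (r / 4) (1 / 2)))⁻¹

theorem hh_continuous (r : ℝ) : Continuous (hh r) := by
  unfold hh
  fun_prop

theorem h2f_continuous (r : ℝ) : Continuous (h2f r) := by
  unfold h2f
  fun_prop

theorem psf_continuous {r : ℝ} (hr : 0 < r) : Continuous (psf r) := by
  unfold psf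
  refine Continuous.inv₀ ?_ ?_
  · exact (continuous_id.add (hh_continuous r)).max continuous_const
  · intro t
    have : 0 < min (r / 4) (1 / 2) := lt_min (by positivity) (by norm_num)
    exact (lt_of_lt_of_le this (le_max_right _ _)).ne'

theorem psf_mul {r t : ℝ} (hr : 0 < r) (ht : 0 ≤ t) : psf r t * (t + hh r t) = 1 := by
  have h0 : 0 < min (r / 4) (1 / 2) := lt_min (by positivity) (by norm_num)
  have h1 : min (r / 4) (1 / 2) ≤ t + hh r t := by
    rcases le_or_gt (r / 4) t with h | h
    · have : 0 ≤ hh r t := le_max_left _ _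
      exact (min_le_left _ _).trans (by linarith)
    · have h2 : 1 / 2 ≤ hh r t := by
        refine le_max_of_le_right ?_
        have h3 : 2 * t / r ≤ 1 / 2 := by
          rw [div_le_iff₀ hr]
          linarith
        linarith
      exact (min_le_right _ _).trans (by linarith)
  unfold psf
  rw [max_eq_left h1]
  exact inv_mul_cancel₀ (lt_of_lt_of_le h0 h1).ne'

theorem h2f_mul {r t : ℝ} (hr : 0 < r) : h2f r t * hh r t = hh r t := by
  rcases le_or_gt t (r / 2) with h | h
  · have h1 : 2 * t / r ≤ 1 := by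
      rw [div_le_iff₀ hr]
      linarith
    have h2 : h2f r t = 1 := by
      unfold h2f
      rw [min_eq_left (by linarith)]
      simp
    rw [h2, one_mul]
  · have h1 : 1 ≤ 2 * t / r := by
      rw [le_div_iff₀ hr]
      linarith
    have h2 : hh r t = 0 := max_eq_left (by linarith)
    rw [h2, mul_zero]

theorem h2f_zero {r t : ℝ} (hr : 0 < r) (h : r ≤ t) : h2f r t = 0 := by
  have h1 : 2 ≤ 2 * t / r := by
    rw [le_div_iff₀ hr]
    linarith
  exact max_eq_left ((min_le_right _ _).trans (by linarith))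

theorem h2f_nonneg (r t : ℝ) : 0 ≤ h2f r t := le_max_left _ _

theorem h2f_le_one (r t : ℝ) : h2f r t ≤ 1 := max_le zero_le_one (min_le_left _ _)

end CUAux

open CUAux in
theorem cutRankP : CutRankP := by
  intro D N k X hX p g hp hg hr
  obtain ⟨c, hc, hgap⟩ := gap X hX p g hp hg hr
  obtain ⟨r, hr0, hrk⟩ : ∃ r : ℝ, 0 < r ∧ k * r < c := by
    refine ⟨c / (k + 1), by positivity, ?_⟩
    rw [mul_div_assoc', div_lt_iff₀ (by positivity)]
    nlinarith
  have hEs : ∀ x, IsSelfAdjoint ((star g * g) x) := fun x => IsSelfAdjoint.star_mul_self (g x)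
  have hEn : ∀ x, 0 ≤ (star g * g) x := fun x => star_mul_self_nonneg (g x)
  set E : C(X, Mt N) := star g * g with hE
  set H := cX (hh r) (hh_continuous r) E hEs with hH
  set H2 := cX (h2f r) (h2f_continuous r) E hEs with hH2
  set Ψ := cX (psf r) (psf_continuous hr0) E hEs with hΨ
  have hpp : ∀ x, p x * p x = p x := fun x => (hp x).isIdempotentElem
  have hps : ∀ x, star (p x) = p x := fun x => (hp x).isSelfAdjoint.star_eq
  have hgx : ∀ x, p x * g x * p x = g x := fun x => congrArg (fun w => w x) hg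
  have hgp : ∀ x, g x * p x = g x := by
    intro x
    rw [← hgx x, mul_assoc (p x * g x), hpp]
  have hpsg : ∀ x, p x * star (g x) = star (g x) := by
    intro x
    rw [← hps x, ← star_mul, hgp]
  have hsgp : ∀ x, star (g x) * p x = star (g x) := by
    intro x
    have h1 : p x * g x = g x := by
      rw [← hgx x, ← mul_assoc, ← mul_assoc, hpp]
    rw [← hps x, ← star_mul, h1]
  have hEx : ∀ x, E x = star (g x) * g x := fun x => rfl
  have hpE : ∀ x, p x * E x = E x := by
    intro x
    rw [hEx, ← mul_assoc, hpsg]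
  have hEp : ∀ x, E x * p x = E x := by
    intro x
    rw [hEx, mul_assoc, hgp]
  have hcom : ∀ x, Commute (E x) (p x) := fun x => by
    rw [commute_iff_eq, hEp, hpE]
  have hcH : ∀ x (F : ℝ → ℝ), Commute (cfc F (E x)) (p x) := fun x F => (hcom x).cfc_real F
  -- the compression of a product
  have hpFp : ∀ x (F : ℝ → ℝ), p x * cfc F (E x) * p x = cfc F (E x) * p x := by
    intro x F
    rw [← (hcH x F).eq, mul_assoc, hpp]
  have hL0 : ∀ x (F : ℝ → ℝ), (∀ t, 0 ≤ t → 0 ≤ F t) → 0 ≤ p x * cfc F (E x) * p x := by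
    intro x F hF
    have h1 : 0 ≤ cfc F (E x) := cfc_nonneg fun t ht => hF t (spectrum_nonneg_of_nonneg (hEn x) ht)
    have h2 := star_left_conjugate_nonneg h1 (p x)
    rwa [hps] at h2
  refine ⟨p * Ψ * p * star g, p * Ψ * p, p * H * p, p * H2 * p, ?_, ?_, ?_, ?_, ?_, ?_, ?_, ?_⟩
  · ext1 x
    change p x * (p x * Ψ x * p x * star (g x)) * p x = p x * Ψ x * p x * star (g x)
    rw [mul_assoc, mul_assoc (p x * Ψ x * p x), hsgp, ← mul_assoc, ← mul_assoc, ← mul_assoc, hpp]
  · ext1 x
    change p x * (p x * Ψ x * p x) * p x = p x * Ψ x * p x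
    rw [← mul_assoc, ← mul_assoc, hpp, mul_assoc, hpp]
  · ext1 x
    change p x * (p x * H x * p x) * p x = p x * H x * p x
    rw [← mul_assoc, ← mul_assoc, hpp, mul_assoc, hpp]
  · ext1 x
    change p x * (p x * H2 x * p x) * p x = p x * H2 x * p x
    rw [← mul_assoc, ← mul_assoc, hpp, mul_assoc, hpp]
  · ext1 x
    change p x * cfc (psf r) (E x) * p x * star (g x) * g x +
      p x * cfc (psf r) (E x) * p x * (p x * cfc (hh r) (E x) * p x) = p x
    rw [hpFp, hpFp]
    have e1 : cfc (psf r) (E x) * p x * star (g x) * g x = p x * (cfc (psf r) (E x) * E x) := by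
      rw [(hcH x _).eq, mul_assoc (p x * cfc (psf r) (E x)), ← hEx, mul_assoc]
    have e2 : cfc (psf r) (E x) * p x * (cfc (hh r) (E x) * p x) =
        p x * (cfc (psf r) (E x) * cfc (hh r) (E x)) := by
      rw [(hcH x (hh r)).eq, ← mul_assoc, mul_assoc (cfc (psf r) (E x)) (p x) (p x), hpp,
        (hcH x (psf r)).eq, mul_assoc]
    rw [e1, e2, ← mul_add, ← mul_add]
    have e3 : E x + cfc (hh r) (E x) = cfc (fun t : ℝ => t + hh r t) (E x) := by
      rw [cfc_add (E x) (fun t : ℝ => t) (hh r) continuousOn_id (hh_continuous r).continuousOn,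
        cfc_id' ℝ (E x) (hEs x)]
    rw [e3, ← cfc_mul (psf r) (fun t : ℝ => t + hh r t) (E x) (psf_continuous hr0).continuousOn
      ((continuous_id.add (hh_continuous r)).continuousOn)]
    have e4 : cfc (fun t : ℝ => psf r t * (t + hh r t)) (E x) = cfc (fun _ : ℝ => (1 : ℝ)) (E x) := by
      apply cfc_congr
      intro t ht
      exact psf_mul hr0 (spectrum_nonneg_of_nonneg (hEn x) ht)
    rw [e4, cfc_const_one ℝ (E x) (hEs x), mul_one]
  · intro x
    exact hL0 x (hh r) fun t _ => le_max_left _ _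
  · intro x
    refine ⟨hL0 x (h2f r) fun t _ => h2f_nonneg r t, ?_, ?_⟩
    · have h1 : cfc (h2f r) (E x) ≤ 1 := cfc_le_one _ _ fun t _ => h2f_le_one r t
      have h2 := star_left_conjugate_le_conjugate h1 (p x)
      rw [hps, mul_one, hpp] at h2
      have h3 : p x ≤ 1 := (hp x).le_one
      exact h2.trans h3
    · by_contra hcon
      push Not at hcon
      set χ : Mt N := (p * H2 * p) x with hχ
      have hχ' : χ = p x * cfc (h2f r) (E x) * p x := rfl
      obtain ⟨v, hv, hvV⟩ := exists_ON (LinearMap.range χ.mat.mulVecLin) hcon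
      have hpχ : p x * χ = χ := by
        rw [hχ', ← mul_assoc, ← mul_assoc, hpp]
      have hpv : ∀ i, Matrix.mulVec (p x).mat (v i) = v i := by
        intro i
        obtain ⟨w, hw⟩ := hvV i
        have hw' : Matrix.mulVec χ.mat w = v i := hw
        rw [← hw', Matrix.mulVec_mulVec, ← mat_mul, hpχ]
      have h1 := hgap x v hv hpv
      -- positivity
      have hpos : 0 ≤ χ * (r • (1 : Mt N) - E x) * χ := by
        have e1 : r • (1 : Mt N) - E x = cfc (fun t : ℝ => r - t) (E x) := by
          rw [cfc_sub (fun _ : ℝ => r) (fun t : ℝ => t) (E x) continuousOn_const continuousOn_id,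
            cfc_id' ℝ (E x) (hEs x), cfc_const r (E x) (hEs x), Algebra.algebraMap_eq_smul_one]
        have e2 : χ * (r • (1 : Mt N) - E x) * χ =
            p x * cfc (fun t : ℝ => h2f r t * (r - t) * h2f r t) (E x) * p x := by
          rw [cfc_mul (fun t : ℝ => h2f r t * (r - t)) (h2f r) (E x)
            (((h2f_continuous r).mul (continuous_const.sub continuous_id)).continuousOn)
            (h2f_continuous r).continuousOn,
            cfc_mul (h2f r) (fun t : ℝ => r - t) (E x) (h2f_continuous r).continuousOn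
            ((continuous_const.sub continuous_id).continuousOn), ← e1, hχ', hpFp]
          have c1 : Commute (r • (1 : Mt N) - E x) (p x) := by
            rw [e1]
            exact hcH x _
          have c2 := hcH x (h2f r)
          calc cfc (h2f r) (E x) * p x * (r • (1 : Mt N) - E x) * (cfc (h2f r) (E x) * p x)
              = cfc (h2f r) (E x) * (p x * (r • (1 : Mt N) - E x)) * (cfc (h2f r) (E x) * p x) := by
                rw [mul_assoc (cfc (h2f r) (E x)) (p x)]
            _ = p x * (cfc (h2f r) (E x) * (r • (1 : Mt N) - E x)) * (cfc (h2f r) (E x) * p x) := by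
                rw [← mul_assoc (cfc (h2f r) (E x)) (p x), c2.eq,
                  mul_assoc (p x) (cfc (h2f r) (E x))]
            _ = _ := by
                simp only [mul_assoc]
        rw [e2]
        refine hL0 x _ fun t ht => ?_
        rcases le_or_gt r t with h | h
        · rw [h2f_zero hr0 h]
          simp
        · have := h2f_nonneg r t
          exact mul_nonneg (mul_nonneg this (by linarith)) this
      have hstar : star χ = χ := by
        rw [hχ', star_mul, star_mul, hps, (IsSelfAdjoint.cfc (f := h2f r) (a := E x)).star_eq,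
          mul_assoc]
      have hle : ∀ i, nsq (Matrix.mulVec (g x).mat (v i)) ≤ r := by
        intro i
        obtain ⟨w, hw⟩ := hvV i
        have hw' : Matrix.mulVec χ.mat w = v i := hw
        have h2 := qf_nonneg hpos w
        have e1 : χ * (r • (1 : Mt N) - E x) * χ = r • (star χ * χ) - star (g x * χ) * (g x * χ) := by
          rw [hstar, star_mul, hstar, hEx, mul_sub, sub_mul, mul_smul_comm, mul_one, smul_mul_assoc]
          simp only [mul_assoc]
        rw [e1, qf_sub, qf_star_mul] at h2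
        have e2 : qf (r • (star χ * χ)) w = r * nsq (v i) := by
          rw [← hw', ← qf_star_mul]
          unfold qf
          have e3 : (r • (star χ * χ) : Mt N).mat = (r : ℂ) • (star χ * χ).mat := by
            rfl
          rw [e3, Matrix.smul_mulVec, dotProduct_smul, smul_eq_mul, Complex.re_ofReal_mul]
        have e4 : nsq (v i) = 1 := by
          unfold nsq
          rw [hv i i, if_pos rfl]
          rfl
        rw [e2, e4, mul_one, mat_mul, ← Matrix.mulVec_mulVec, hw'] at h2
        linarith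
      have h3 : ∑ i, nsq (Matrix.mulVec (g x).mat (v i)) ≤ ∑ _i : Fin k, r :=
        Finset.sum_le_sum fun i _ => hle i
      rw [Finset.sum_const, Finset.card_univ, Fintype.card_fin, nsmul_eq_mul] at h3
      linarith
  · ext1 x
    change p x * cfc (h2f r) (E x) * p x * (p x * cfc (hh r) (E x) * p x) =
      p x * cfc (hh r) (E x) * p x
    rw [hpFp, hpFp, (hcH x (hh r)).eq, ← mul_assoc, mul_assoc (cfc (h2f r) (E x)) (p x) (p x), hpp,
      (hcH x (h2f r)).eq, mul_assoc, ← cfc_mul (h2f r) (hh r) (E x) (h2f_continuous r).continuousOn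
      (hh_continuous r).continuousOn]
    congr 2
    funext t
    exact h2f_mul hr0

end RC
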