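import Pool.Agent.Helper82.AH.Props

/-!
# MP_b55b7c_an: packet AH-DR
-/

open scoped ENNReal NNReal InnerProductSpace ComplexOrder Manifold ContDiff
open Filter Topology

attribute [-instance] CStarMatrix.instAlgebra CStarMatrix.instModule CStarMatrix.instSMul
  CStarMatrix.instMulAction CStarMatrix.instDistribMulAction

noncomputable section
namespace RC
universe u

namespace DRAux

/-- The matrix with the columns `A` and linear combinations of the columns `A`. -/
def S {N s k : ℕ} (e : Fin N ≃ Fin s ⊕ Fin k) (A : Fin s → Fin N → ℂ) (c : Fin k → Fin s → ℂ) :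
    Fin N → Fin N → ℂ :=
  fun i j => Sum.elim (fun l => A l i) (fun m => ∑ l, c m l * A l i) (e j)

/-- A matrix of rank at most `s` is of this form. -/
theorem exists_S {N s k : ℕ} (hN : N = s + k) (T : Matrix (Fin N) (Fin N) ℂ) (hT : T.rank ≤ s) :
    ∃ (e : Fin N ≃ Fin s ⊕ Fin k) (A : Fin s → Fin N → ℂ) (c : Fin k → Fin s → ℂ),
      (T : Fin N → Fin N → ℂ) = S e A c := by
  classical
  obtain ⟨κ, a, ha, hsp, hli⟩ := exists_linearIndependent' ℂ (fun j : Fin N => fun i => T i j)
  have : Finite κ := Finite.of_injective a ha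
  have : Fintype κ := Fintype.ofFinite κ
  have hcard : Fintype.card κ ≤ s := by
    have h1 := finrank_span_eq_card hli
    rw [hsp] at h1
    have h2 : T.rank = Module.finrank ℂ (Submodule.span ℂ (Set.range (fun j : Fin N => fun i => T i j))) := by
      rw [Matrix.rank_eq_finrank_span_cols]
      rfl
    rw [← h1, ← h2]
    exact hT
  have hc2 : (Finset.univ.image a).card ≤ s := by
    rw [Finset.card_image_of_injective _ ha, Finset.card_univ]
    exact hcard
  obtain ⟨J, hJ1, hJ2⟩ := Finset.exists_superset_card_eq (s := Finset.univ.image a) (n := s) hc2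
    (by rw [Fintype.card_fin]; omega)
  have e1 : Fintype.card {j : Fin N // j ∈ J} = s := by
    rw [Fintype.card_coe]
    exact hJ2
  have e2 : Fintype.card {j : Fin N // ¬ j ∈ J} = k := by
    rw [Fintype.card_subtype_compl, Fintype.card_fin, e1]
    omega
  let e : Fin N ≃ Fin s ⊕ Fin k := (Equiv.sumCompl (fun j : Fin N => j ∈ J)).symm.trans
    (Equiv.sumCongr (Fintype.equivFinOfCardEq e1) (Fintype.equivFinOfCardEq e2))
  have hmem : ∀ j : Fin N, j ∈ J → ∃ l, e.symm (Sum.inl l) = j := by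
    intro j hj
    refine ⟨Fintype.equivFinOfCardEq e1 ⟨j, hj⟩, ?_⟩
    rw [Equiv.symm_apply_eq]
    simp only [e, Equiv.trans_apply]
    rw [Equiv.sumCompl_symm_apply_of_pos (p := fun j : Fin N => j ∈ J) hj]
    rfl
  have hcol : ∀ m : Fin k, ∃ c : Fin s → ℂ, ∑ l, c l • (fun i => T i (e.symm (Sum.inl l))) =
      fun i => T i (e.symm (Sum.inr m)) := by
    intro m
    have h1 : (fun i => T i (e.symm (Sum.inr m))) ∈
        Submodule.span ℂ (Set.range (fun j : Fin N => fun i => T i j)) :=
      Submodule.subset_span ⟨e.symm (Sum.inr m), rfl⟩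
    rw [← hsp] at h1
    have h2 : Submodule.span ℂ (Set.range ((fun j : Fin N => fun i => T i j) ∘ a)) ≤
        Submodule.span ℂ (Set.range fun l : Fin s => fun i => T i (e.symm (Sum.inl l))) := by
      apply Submodule.span_mono
      rintro _ ⟨x, rfl⟩
      obtain ⟨l, hl⟩ := hmem (a x) (hJ1 (Finset.mem_image_of_mem a (Finset.mem_univ x)))
      exact ⟨l, by simp only [Function.comp, hl]⟩
    exact (Submodule.mem_span_range_iff_exists_fun ℂ).1 (h2 h1)
  choose c hc using hcol
  refine ⟨e, fun l i => T i (e.symm (Sum.inl l)), c, ?_⟩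
  funext i j
  unfold S
  rcases hj : e j with l | m
  · simp only [Sum.elim_inl]
    rw [← hj, Equiv.symm_apply_apply]
  · simp only [Sum.elim_inr]
    have h1 := congrFun (hc m) i
    simp only [Finset.sum_apply, Pi.smul_apply, smul_eq_mul] at h1
    rw [h1, ← hj, Equiv.symm_apply_apply]

/-- General position. -/
theorem generic {D N s k : ℕ} (hN : N = s + k) (hD : D < 2 * k ^ 2)
    (Y1 : (Fin D → ℝ) → (Fin N → Fin N → ℂ)) (hY : ContDiff ℝ 1 Y1) (δ : ℝ) (hδ : 0 < δ) :
    ∃ W : Fin N → Fin N → ℂ, ‖W‖ < δ ∧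
      ∀ x, s < (Matrix.of (Y1 x + W)).rank := by
  classical
  let P := (Fin D → ℝ) × (Fin s → Fin N → ℂ) × (Fin k → Fin s → ℂ)
  let Φ : (Fin N ≃ Fin s ⊕ Fin k) → P → (Fin N → Fin N → ℂ) :=
    fun e z => S e z.2.1 z.2.2 - Y1 z.1
  have hΦ : ∀ e, ContDiff ℝ 1 (Φ e) := by
    intro e
    refine ContDiff.sub ?_ (hY.comp contDiff_fst)
    rw [contDiff_pi]
    intro i
    rw [contDiff_pi]
    intro j
    unfold S
    rcases e j with l | m
    · simp only [Sum.elim_inl]
      fun_prop
    · simp only [Sum.elim_inr]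
      fun_prop
  have hfin : Module.finrank ℝ P < Module.finrank ℝ (Fin N → Fin N → ℂ) := by
    have e1 : Module.finrank ℝ P = D + (s * (N * 2) + k * (s * 2)) := by
      simp only [P, Module.finrank_prod, Module.finrank_pi_fintype, Module.finrank_self,
        Complex.finrank_real_complex, Finset.sum_const, Finset.card_univ, Fintype.card_fin,
        smul_eq_mul, mul_one]
    have e2 : Module.finrank ℝ (Fin N → Fin N → ℂ) = N * (N * 2) := by
      simp only [Module.finrank_pi_fintype,
        Complex.finrank_real_complex, Finset.sum_const, Finset.card_univ, Fintype.card_fin,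
        smul_eq_mul]
    rw [e1, e2]
    subst hN
    nlinarith
  have hd : dimH (⋃ e, Set.range (Φ e)) < Module.finrank ℝ (Fin N → Fin N → ℂ) := by
    rw [dimH_iUnion]
    refine lt_of_le_of_lt (iSup_le fun e => (hΦ e).dimH_range_le) ?_
    exact_mod_cast hfin
  have hdense := dense_compl_of_dimH_lt_finrank hd
  obtain ⟨W, hW1, hW2⟩ := hdense.exists_dist_lt 0 hδ
  refine ⟨W, by rwa [dist_zero_left] at hW2, ?_⟩
  intro x
  by_contra hcon
  push Not at hcon
  obtain ⟨e, A, c, h⟩ := exists_S hN _ hcon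
  apply hW1
  refine Set.mem_iUnion.2 ⟨e, ⟨(x, A, c), ?_⟩⟩
  change S e A c - Y1 x = W
  rw [← h]
  change Y1 x + W - Y1 x = W
  abel

/-- Smooth approximation. -/
theorem smooth_approx {D N : ℕ} (X : Set (Fin D → ℝ)) (hX : IsCompact X)
    (Y : C(X, Fin N → Fin N → ℂ)) (δ : ℝ) (hδ : 0 < δ) :
    ∃ Y1 : (Fin D → ℝ) → (Fin N → Fin N → ℂ), ContDiff ℝ 1 Y1 ∧
      ∀ x : X, ‖Y1 x - Y x‖ < δ := by
  obtain ⟨g, hg⟩ := ContinuousMap.exists_restrict_eq hX.isClosed Y
  obtain ⟨f, hf⟩ := exists_contMDiffMap_forall_mem_convex_of_local_const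
    (I := 𝓘(ℝ, Fin D → ℝ)) (n := 1) (F := Fin N → Fin N → ℂ)
    (t := fun x : Fin D → ℝ => Metric.ball (g x) δ) (fun x => convex_ball _ _) (by
      intro x
      refine ⟨g x, ?_⟩
      have h1 : Tendsto (fun y => dist (g x) (g y)) (𝓝 x) (𝓝 (dist (g x) (g x))) :=
        (tendsto_const_nhds.dist g.continuous.continuousAt)
      rw [dist_self] at h1
      exact h1.eventually_lt_const hδ)
  refine ⟨f, f.contMDiff.contDiff, fun x => ?_⟩
  have h1 := hf x
  have h2 : g x = Y x := by
    rw [← hg]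
    rfl
  rw [h2, Metric.mem_ball, dist_eq_norm] at h1
  exact h1

theorem toFun_continuous (N : ℕ) :
    Continuous (fun m : Mt N => (fun i j => m.mat i j : Fin N → Fin N → ℂ)) :=
  (continuous_id : Continuous (id : (Fin N → Fin N → ℂ) → (Fin N → Fin N → ℂ)))

/-- The inverse map. -/
def ofFun {N : ℕ} (v : Fin N → Fin N → ℂ) : Mt N := CStarMatrix.ofMatrix (Matrix.of v)

theorem ofFun_continuous (N : ℕ) : Continuous (ofFun : (Fin N → Fin N → ℂ) → Mt N) :=
  (continuous_id : Continuous (id : (Fin N → Fin N → ℂ) → (Fin N → Fin N → ℂ)))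

end DRAux

open DRAux in
theorem denseRankP : DenseRankP := by
  intro D N k X hX Y δ hδ hD
  by_cases hk : N < k
  · exact ⟨Y, fun x => by rw [sub_self, norm_zero]; exact hδ.le, fun x => by omega⟩
  push Not at hk
  obtain ⟨s, hs⟩ : ∃ s, N = s + k := ⟨N - k, by omega⟩
  -- the modulus of continuity of the identity
  have hcont := (ofFun_continuous N).continuousAt (x := 0)
  have h0 : (ofFun (0 : Fin N → Fin N → ℂ) : Mt N) = 0 := rfl
  rw [Metric.continuousAt_iff] at hcont
  obtain ⟨η, hη, hη'⟩ := hcont δ hδ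
  rw [h0] at hη'
  let Yf : C(X, Fin N → Fin N → ℂ) :=
    ⟨fun x => fun i j => (Y x).mat i j, (toFun_continuous N).comp Y.continuous⟩
  obtain ⟨Y1, hY1, hY1'⟩ := smooth_approx X hX Yf (η / 2) (by positivity)
  obtain ⟨W, hW, hrank⟩ := generic hs hD Y1 hY1 (η / 2) (by positivity)
  refine ⟨⟨fun x => ofFun (Y1 x + W), (ofFun_continuous N).comp
    ((hY1.continuous.comp continuous_subtype_val).add continuous_const)⟩, ?_, ?_⟩
  · intro x
    have h1 : dist (Y1 x + W - Yf x) 0 < η := by
      rw [dist_zero_right]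
      have e1 : Y1 x + W - Yf x = (Y1 x - Yf x) + W := by abel
      rw [e1]
      have := norm_add_le (Y1 x - Yf x) W
      have := hY1' x
      linarith
    have h2 := hη' h1
    rw [dist_zero_right] at h2
    exact h2.le
  · intro x
    have h1 := hrank x
    change N < (Matrix.of (Y1 x + W)).rank + k
    omega

end RC
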